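import Mathlib

/-!
# Admissible systems of pre-independence spaces containing all independence spaces

For every infinite set `S` the least admissible system containing all independence spaces consists
of the independence spaces and their duals, and the least one that is moreover closed under
arbitrary direct sums consists of the direct sums of an independence space and of the dual of an
independence space. Both are proper subsystems of the system of all B-matroids, on every infinite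
subset of `S`.
-/

set_option autoImplicit false

open Set
open scoped Matroid

namespace Pool.Agent.Results.MP_cb2a9f_co.SmallerSystems

universe u

variable {S : Type u}

/-- `B` is a basis, that is a maximal member, of `𝓘`. -/
def IsBasisOf (𝓘 : Set (Set S)) (B : Set S) : Prop :=
  B ∈ 𝓘 ∧ ∀ Y ∈ 𝓘, B ⊆ Y → Y = B

/-- Pre-independence spaces on `W`. -/
structure PreIndepSpace (W : Set S) (𝓘 : Set (Set S)) : Prop where
  subset : ∀ X ∈ 𝓘, X ⊆ W
  empty : ∅ ∈ 𝓘
  down : ∀ X ∈ 𝓘, ∀ Y, Y ⊆ X → Y ∈ 𝓘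
  augment : ∀ I₁ ∈ 𝓘, ∀ I₂ ∈ 𝓘, I₁.Finite → I₂.Finite → I₁.ncard < I₂.ncard →
    ∃ e ∈ I₂ \ I₁, I₁ ∪ {e} ∈ 𝓘

/-- Independence spaces on `W`. -/
structure IndepSpace (W : Set S) (𝓘 : Set (Set S)) : Prop extends PreIndepSpace W 𝓘 where
  finitary : ∀ Y : Set S, (∀ F, F ⊆ Y → F.Finite → F ∈ 𝓘) → Y ∈ 𝓘

/-- The restriction `𝓘 | Z`. -/
def restriction (𝓘 : Set (Set S)) (Z : Set S) : Set (Set S) := {Y | Y ∈ 𝓘 ∧ Y ⊆ Z}

/-- B-matroids on `W`; the bases of `restriction 𝓘 X` are the maximal members of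
`{Y ∈ 𝓘 | Y ⊆ X}`. -/
structure BMatroid (W : Set S) (𝓘 : Set (Set S)) : Prop where
  subset : ∀ X ∈ 𝓘, X ⊆ W
  empty : ∅ ∈ 𝓘
  down : ∀ X ∈ 𝓘, ∀ Y, Y ⊆ X → Y ∈ 𝓘
  ib1 : ∀ X, X ⊆ W → ∀ T ∈ 𝓘, T ⊆ X → ∃ B, IsBasisOf (restriction 𝓘 X) B ∧ T ⊆ B
  ib2 : ∀ X, X ⊆ W → ∀ B₁ B₂, IsBasisOf (restriction 𝓘 X) B₁ → IsBasisOf (restriction 𝓘 X) B₂ →
    ∀ x ∈ B₁ \ B₂, ∃ y ∈ B₂ \ B₁, IsBasisOf (restriction 𝓘 X) ((B₁ \ {x}) ∪ {y})

/-- The contraction `𝓘 . Z`, computed with the basis `B` of `𝓘 | (W \ Z)`. -/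
def contraction (𝓘 : Set (Set S)) (Z B : Set S) : Set (Set S) := {Y | Y ⊆ Z ∧ Y ∪ B ∈ 𝓘}

/-- The dual of `𝓘` on `W`. -/
def dual (W : Set S) (𝓘 : Set (Set S)) : Set (Set S) :=
  {X | X ⊆ W ∧ ∃ B, IsBasisOf 𝓘 B ∧ B ⊆ W \ X}

/-- Admissible systems on `S`. -/
structure Admissible (𝒟 : Set S → Set (Set (Set S))) : Prop where
  pre : ∀ W, ∀ 𝓘 ∈ 𝒟 W, PreIndepSpace W 𝓘
  restr : ∀ Z W, Z ⊆ W → ∀ 𝓘 ∈ 𝒟 W, restriction 𝓘 Z ∈ 𝒟 Z
  contr_exists : ∀ Z W, Z ⊆ W → ∀ 𝓘 ∈ 𝒟 W, ∃ B, IsBasisOf (restriction 𝓘 (W \ Z)) B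
  contr_unique : ∀ Z W, Z ⊆ W → ∀ 𝓘 ∈ 𝒟 W, ∀ B B', IsBasisOf (restriction 𝓘 (W \ Z)) B →
    IsBasisOf (restriction 𝓘 (W \ Z)) B' → contraction 𝓘 Z B = contraction 𝓘 Z B'
  contr : ∀ Z W, Z ⊆ W → ∀ 𝓘 ∈ 𝒟 W, ∀ B, IsBasisOf (restriction 𝓘 (W \ Z)) B →
    contraction 𝓘 Z B ∈ 𝒟 Z
  dual_mem : ∀ W, ∀ 𝓘 ∈ 𝒟 W, dual W 𝓘 ∈ 𝒟 W
  dual_dual : ∀ W, ∀ 𝓘 ∈ 𝒟 W, dual W (dual W 𝓘) = 𝓘

/-- `𝒟 W` contains all independence spaces on `W`, for every `W`. -/
def ContainsIndepSpaces (𝒟 : Set S → Set (Set (Set S))) : Prop :=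
  ∀ W 𝓘, IndepSpace W 𝓘 → 𝓘 ∈ 𝒟 W

/-- The direct sum of the families `𝓘 i` on the pairwise disjoint sets `V i`. -/
def directSum {ι : Type u} (V : ι → Set S) (𝓘 : ι → Set (Set S)) : Set (Set S) :=
  {X | X ⊆ ⋃ i, V i ∧ ∀ i, X ∩ V i ∈ 𝓘 i}

/-- The system is closed under arbitrary direct sums. -/
def ClosedUnderSums (𝒟 : Set S → Set (Set (Set S))) : Prop :=
  ∀ (ι : Type u) (V : ι → Set S) (𝓘 : ι → Set (Set S)), (∀ i j, i ≠ j → Disjoint (V i) (V j)) →
    (∀ i, 𝓘 i ∈ 𝒟 (V i)) → directSum V 𝓘 ∈ 𝒟 (⋃ i, V i)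

/-- The independence spaces and the duals of independence spaces. -/
def leastSystem (W : Set S) : Set (Set (Set S)) :=
  {𝓘 | IndepSpace W 𝓘 ∨ ∃ 𝓙, IndepSpace W 𝓙 ∧ 𝓘 = dual W 𝓙}

/-- The direct sums of an independence space `𝓙` on a subset `A` of `W` and of the dual of an
independence space `𝓚` on `W \ A`. -/
def sumSystem (W : Set S) : Set (Set (Set S)) :=
  {𝓘 | ∃ A 𝓙 𝓚, A ⊆ W ∧ IndepSpace A 𝓙 ∧ IndepSpace (W \ A) 𝓚 ∧
    𝓘 = {X | X ⊆ W ∧ X ∩ A ∈ 𝓙 ∧ X \ A ∈ dual (W \ A) 𝓚}}

/-! ### Translation to Mathlib's matroids -/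

/-- the independent sets of a matroid -/
def fam (M : Matroid S) : Set (Set S) := {X | M.Indep X}

theorem isBasisOf_fam {M : Matroid S} {B : Set S} : IsBasisOf (fam M) B ↔ M.IsBase B := by
  rw [Matroid.isBase_iff_maximal_indep]
  constructor
  · rintro ⟨h1, h2⟩
    exact ⟨h1, fun Y hY hBY => (h2 Y hY hBY).le⟩
  · rintro ⟨h1, h2⟩
    exact ⟨h1, fun Y hY hBY => Subset.antisymm (h2 hY hBY) hBY⟩

theorem restriction_fam {M : Matroid S} {Z : Set S} : restriction (fam M) Z = fam (M ↾ Z) := by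
  ext X
  simp [restriction, fam, Matroid.restrict_indep_iff]

theorem isBasisOf_restriction {M : Matroid S} {X B : Set S} (hX : X ⊆ M.E) :
    IsBasisOf (restriction (fam M) X) B ↔ M.IsBasis B X := by
  rw [restriction_fam, isBasisOf_fam, Matroid.isBase_restrict_iff hX]

theorem dual_fam (M : Matroid S) : dual M.E (fam M) = fam M✶ := by
  ext X
  simp only [dual, fam, mem_ofPred_eq, Matroid.dual_indep_iff_exists']
  refine and_congr_right fun hX => ?_
  constructor
  · rintro ⟨B, hB, hBX⟩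
    exact ⟨B, isBasisOf_fam.1 hB, (subset_sdiff.1 hBX).2.symm⟩
  · rintro ⟨B, hB, hBX⟩
    exact ⟨B, isBasisOf_fam.2 hB, subset_sdiff.2 ⟨hB.subset_ground, hBX.symm⟩⟩

theorem contraction_fam {M : Matroid S} {Z B : Set S}
    (hB : M.IsBasis B (M.E \ Z)) : contraction (fam M) Z B = fam (M ／ (M.E \ Z)) := by
  ext Y
  simp only [contraction, fam, mem_ofPred_eq]
  rw [hB.contract_indep_iff, and_comm]
  refine and_congr_right fun h => ?_
  constructor
  · intro h1
    exact disjoint_left.2 fun x hx hx' => hx.2 (h1 hx')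
  · intro h1 y hy
    by_contra hyZ
    exact disjoint_left.1 h1 ⟨h.subset_ground (Or.inl hy), hyZ⟩ hy

theorem pre_fam (M : Matroid S) : PreIndepSpace M.E (fam M) where
  subset X hX := Matroid.Indep.subset_ground hX
  empty := M.empty_indep
  down X hX Y hY := Matroid.Indep.subset hX hY
  augment I₁ h₁ I₂ h₂ f₁ f₂ hlt := by
    have : I₁.encard < I₂.encard := by
      rw [← f₁.cast_ncard_eq, ← f₂.cast_ncard_eq]
      exact_mod_cast hlt
    obtain ⟨e, he, hi⟩ := Matroid.Indep.augment h₁ h₂ this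
    exact ⟨e, he, by rw [union_singleton]; exact hi⟩

theorem indep_fam (M : Matroid S) (h : M.Finitary) : IndepSpace M.E (fam M) where
  toPreIndepSpace := pre_fam M
  finitary Y hY := h.indep_of_forall_finite Y hY

theorem bmatroid_fam (M : Matroid S) : BMatroid M.E (fam M) where
  subset X hX := Matroid.Indep.subset_ground hX
  empty := M.empty_indep
  down X hX Y hY := Matroid.Indep.subset hX hY
  ib1 X hX T hT hTX := by
    obtain ⟨B, hB, hTB⟩ := Matroid.Indep.subset_isBasis_of_subset hT hTX hX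
    exact ⟨B, (isBasisOf_restriction hX).2 hB, hTB⟩
  ib2 X hX B₁ B₂ h₁ h₂ x hx := by
    rw [isBasisOf_restriction hX] at h₁ h₂
    rw [← Matroid.isBase_restrict_iff hX] at h₁ h₂
    obtain ⟨y, hy, h⟩ := h₁.exchange h₂ hx
    refine ⟨y, hy, ?_⟩
    rw [isBasisOf_restriction hX, ← Matroid.isBase_restrict_iff hX, union_singleton]
    exact h

theorem exists_of_indepSpace {W : Set S} {𝓘 : Set (Set S)} (h : IndepSpace W 𝓘) :
    ∃ M : Matroid S, M.E = W ∧ M.Finitary ∧ fam M = 𝓘 := by
  refine ⟨(IndepMatroid.ofFinitaryCardAugment W (fun X => X ∈ 𝓘) h.empty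
    (fun I J hJ hIJ => h.down J hJ I hIJ) ?_ (fun I hI => h.finitary I hI) h.subset).matroid,
    rfl, inferInstance, rfl⟩
  intro I J hI hIf hJ hJf hlt
  obtain ⟨e, he, h'⟩ := h.augment I hI J hJ hIf hJf hlt
  exact ⟨e, he.1, he.2, by rwa [union_singleton] at h'⟩

/-- the system given by a class of matroids -/
def sysOf (P : Matroid S → Prop) (W : Set S) : Set (Set (Set S)) :=
  {𝓘 | ∃ M : Matroid S, M.E = W ∧ P M ∧ fam M = 𝓘}

theorem admissible_sysOf (P : Matroid S → Prop)
    (hr : ∀ M : Matroid S, P M → ∀ Z, Z ⊆ M.E → P (M ↾ Z)) (hd : ∀ M : Matroid S, P M → P M✶) :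
    Admissible (sysOf P) where
  pre W 𝓘 := by
    rintro ⟨M, rfl, -, rfl⟩
    exact pre_fam M
  restr Z W hZ 𝓘 := by
    rintro ⟨M, rfl, hM, rfl⟩
    exact ⟨M ↾ Z, rfl, hr M hM Z hZ, restriction_fam.symm⟩
  contr_exists Z W hZ 𝓘 := by
    rintro ⟨M, rfl, hM, rfl⟩
    obtain ⟨B, hB⟩ := M.exists_isBasis (M.E \ Z) sdiff_subset
    exact ⟨B, (isBasisOf_restriction sdiff_subset).2 hB⟩
  contr_unique Z W hZ 𝓘 := by
    rintro ⟨M, rfl, hM, rfl⟩ B B' hB hB'
    rw [isBasisOf_restriction sdiff_subset] at hB hB'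
    rw [contraction_fam hB, contraction_fam hB']
  contr Z W hZ 𝓘 := by
    rintro ⟨M, rfl, hM, rfl⟩ B hB
    rw [isBasisOf_restriction sdiff_subset] at hB
    rw [contraction_fam hB]
    refine ⟨M ／ (M.E \ Z), ?_, ?_, rfl⟩
    · rw [Matroid.contract_ground, sdiff_sdiff_cancel_left hZ]
    · have h1 : M ／ (M.E \ Z) = (M✶ ↾ Z)✶ := by
        rw [← Matroid.dual_delete_dual, Matroid.delete_eq_restrict, Matroid.dual_ground,
          sdiff_sdiff_cancel_left hZ]
      rw [h1]
      exact hd _ (hr _ (hd _ hM) Z hZ)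
  dual_mem W 𝓘 := by
    rintro ⟨M, rfl, hM, rfl⟩
    exact ⟨M✶, rfl, hd M hM, (dual_fam M).symm⟩
  dual_dual W 𝓘 := by
    rintro ⟨M, rfl, hM, rfl⟩
    rw [dual_fam, ← Matroid.dual_ground, dual_fam, Matroid.dual_dual]

/-! ### The least system -/

theorem leastSystem_eq : leastSystem (S := S) = sysOf fun M => M.Finitary ∨ M✶.Finitary := by
  funext W
  ext 𝓘
  constructor
  · rintro (h | ⟨𝓙, h, rfl⟩)
    · obtain ⟨M, hE, hf, hI⟩ := exists_of_indepSpace h
      exact ⟨M, hE, Or.inl hf, hI⟩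
    · obtain ⟨M, rfl, hf, rfl⟩ := exists_of_indepSpace h
      exact ⟨M✶, rfl, Or.inr (by rwa [Matroid.dual_dual]), (dual_fam M).symm⟩
  · rintro ⟨M, rfl, h | h, rfl⟩
    · exact Or.inl (indep_fam M h)
    · refine Or.inr ⟨fam M✶, indep_fam M✶ h, ?_⟩
      rw [← Matroid.dual_ground, dual_fam, Matroid.dual_dual]

theorem finitary_restrict_or {M : Matroid S} (h : M✶.Finitary) (Z : Set S) (hZ : Z ⊆ M.E) :
    (M ↾ Z)✶.Finitary := by
  have h1 : (M ↾ Z)✶ = M✶ ／ (M.E \ Z) := by
    rw [← Matroid.dual_delete, Matroid.delete_eq_restrict, sdiff_sdiff_cancel_left hZ]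
  rw [h1]
  infer_instance

theorem admissible_leastSystem : Admissible (leastSystem (S := S)) := by
  rw [leastSystem_eq]
  refine admissible_sysOf _ (fun M hM Z hZ => ?_) (fun M hM => ?_)
  · rcases hM with h | h
    · exact Or.inl inferInstance
    · exact Or.inr (finitary_restrict_or h Z hZ)
  · rcases hM with h | h
    · exact Or.inr (by rwa [Matroid.dual_dual])
    · exact Or.inl h

/-! ### The system of the direct sums -/

/-- direct sums of a finitary matroid and a cofinitary one -/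
def PS (M : Matroid S) : Prop :=
  ∃ (M₁ M₂ : Matroid S) (h : Disjoint M₁.E M₂.E), M₁.Finitary ∧ M₂✶.Finitary ∧
    M = M₁.disjointSum M₂ h

theorem fam_disjointSum {M₁ M₂ : Matroid S} (h : Disjoint M₁.E M₂.E) :
    fam (M₁.disjointSum M₂ h) =
      {X | X ⊆ M₁.E ∪ M₂.E ∧ X ∩ M₁.E ∈ fam M₁ ∧ X \ M₁.E ∈ fam M₂} := by
  ext X
  simp only [fam, mem_ofPred_eq, Matroid.disjointSum_indep_iff]
  constructor
  · rintro ⟨h1, h2, h3⟩
    refine ⟨h3, h1, ?_⟩
    convert h2 using 1
    ext x
    exact ⟨fun hx => ⟨hx.1, (h3 hx.1).resolve_left hx.2⟩,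
      fun hx => ⟨hx.1, fun hx1 => disjoint_left.1 h hx1 hx.2⟩⟩
  · rintro ⟨h3, h1, h2⟩
    refine ⟨h1, ?_, h3⟩
    convert h2 using 1
    ext x
    exact ⟨fun hx => ⟨hx.1, fun hx1 => disjoint_left.1 h hx1 hx.2⟩,
      fun hx => ⟨hx.1, (h3 hx.1).resolve_left hx.2⟩⟩

theorem sumSystem_eq : sumSystem (S := S) = sysOf PS := by
  funext W
  ext 𝓘
  constructor
  · rintro ⟨A, 𝓙, 𝓚, hA, hJ, hK, rfl⟩
    obtain ⟨M₁, rfl, hf₁, rfl⟩ := exists_of_indepSpace hJ
    obtain ⟨M₂, hE, hf₂, rfl⟩ := exists_of_indepSpace hK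
    have hd : Disjoint M₁.E M₂✶.E := by
      rw [Matroid.dual_ground, hE]
      exact disjoint_sdiff_right
    refine ⟨M₁.disjointSum M₂✶ hd, ?_, ⟨M₁, M₂✶, hd, hf₁, by rwa [Matroid.dual_dual], rfl⟩, ?_⟩
    · rw [Matroid.disjointSum_ground_eq, Matroid.dual_ground, hE]
      exact union_sdiff_cancel hA
    · rw [fam_disjointSum, Matroid.dual_ground, hE, union_sdiff_cancel hA, ← hE, dual_fam]
  · rintro ⟨M, rfl, ⟨M₁, M₂, hd, hf₁, hf₂, rfl⟩, rfl⟩
    have hE : (M₁.disjointSum M₂ hd).E \ M₁.E = M₂.E := by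
      rw [Matroid.disjointSum_ground_eq, union_sdiff_left]
      exact hd.sdiff_eq_right
    refine ⟨M₁.E, fam M₁, fam M₂✶, ?_, indep_fam M₁ hf₁, ?_, ?_⟩
    · rw [Matroid.disjointSum_ground_eq]
      exact subset_union_left
    · rw [hE]
      exact indep_fam M₂✶ hf₂
    · rw [hE, fam_disjointSum, Matroid.disjointSum_ground_eq]
      have h2 : dual M₂.E (fam M₂✶) = fam M₂ := by
        have := dual_fam M₂✶
        rwa [Matroid.dual_ground, Matroid.dual_dual] at this
      rw [h2]

theorem dual_disjointSum {M₁ M₂ : Matroid S} (h : Disjoint M₁.E M₂.E)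
    (h' : Disjoint M₁✶.E M₂✶.E) :
    (M₁.disjointSum M₂ h)✶ = M₁✶.disjointSum M₂✶ h' := by
  refine Matroid.ext_isBase (by simp) fun B hB => ?_
  rw [Matroid.dual_ground] at hB
  rw [Matroid.dual_isBase_iff hB]
  rw [Matroid.disjointSum_ground_eq] at hB
  simp only [Matroid.disjointSum_isBase_iff, Matroid.disjointSum_ground_eq, Matroid.dual_ground,
    Matroid.dual_isBase_iff']
  have e1 : ((M₁.E ∪ M₂.E) \ B) ∩ M₁.E = M₁.E \ (B ∩ M₁.E) := by
    ext x; simp only [mem_inter_iff, mem_sdiff, mem_union]; tauto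
  have e2 : ((M₁.E ∪ M₂.E) \ B) ∩ M₂.E = M₂.E \ (B ∩ M₂.E) := by
    ext x; simp only [mem_inter_iff, mem_sdiff, mem_union]; tauto
  rw [e1, e2]
  constructor
  · rintro ⟨h1, h2, -⟩
    exact ⟨⟨h1, inter_subset_right⟩, ⟨h2, inter_subset_right⟩, hB⟩
  · rintro ⟨⟨h1, -⟩, ⟨h2, -⟩, -⟩
    exact ⟨h1, h2, sdiff_subset⟩

theorem PS_dual {M : Matroid S} (h : PS M) : PS M✶ := by
  obtain ⟨M₁, M₂, hd, hf₁, hf₂, rfl⟩ := h
  have hd' : Disjoint M₁✶.E M₂✶.E := by
    rw [Matroid.dual_ground, Matroid.dual_ground]; exact hd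
  refine ⟨M₂✶, M₁✶, hd'.symm, hf₂, by rwa [Matroid.dual_dual], ?_⟩
  rw [dual_disjointSum hd hd', Matroid.disjointSum_comm]

theorem PS_restrict {M : Matroid S} (h : PS M) (Z : Set S) (hZ : Z ⊆ M.E) : PS (M ↾ Z) := by
  obtain ⟨M₁, M₂, hd, hf₁, hf₂, rfl⟩ := h
  rw [Matroid.disjointSum_ground_eq] at hZ
  have hd' : Disjoint (M₁ ↾ (Z ∩ M₁.E)).E (M₂ ↾ (Z ∩ M₂.E)).E :=
    hd.mono inter_subset_right inter_subset_right
  refine ⟨M₁ ↾ (Z ∩ M₁.E), M₂ ↾ (Z ∩ M₂.E), hd', inferInstance,
    finitary_restrict_or hf₂ _ inter_subset_right, ?_⟩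
  refine Matroid.ext_indep ?_ fun X hX => ?_
  · rw [Matroid.disjointSum_ground_eq]
    simp only [Matroid.restrict_ground_eq]
    rw [← inter_union_distrib_left, inter_eq_left.2 hZ]
  · rw [Matroid.restrict_ground_eq] at hX
    simp only [Matroid.restrict_indep_iff, Matroid.disjointSum_indep_iff,
      Matroid.restrict_ground_eq]
    have e1 : X ∩ (Z ∩ M₁.E) = X ∩ M₁.E := by
      rw [← inter_assoc, inter_eq_left.2 hX]
    have e2 : X ∩ (Z ∩ M₂.E) = X ∩ M₂.E := by
      rw [← inter_assoc, inter_eq_left.2 hX]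
    rw [e1, e2, ← inter_union_distrib_left, inter_eq_left.2 hZ]
    constructor
    · rintro ⟨⟨h1, h2, h3⟩, h4⟩
      exact ⟨⟨h1, inter_subset_inter_left _ hX⟩, ⟨h2, inter_subset_inter_left _ hX⟩, hX⟩
    · rintro ⟨⟨h1, -⟩, ⟨h2, -⟩, -⟩
      exact ⟨⟨h1, h2, hX.trans hZ⟩, hX⟩

theorem admissible_sumSystem : Admissible (sumSystem (S := S)) := by
  rw [sumSystem_eq]
  exact admissible_sysOf _ (fun M hM Z hZ => PS_restrict hM Z hZ) fun M hM => PS_dual hM

/-! ### Closure under arbitrary direct sums -/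

open scoped Function in
theorem fam_disjointSigma {ι : Type u} (M : ι → Matroid S)
    (h : Pairwise (Disjoint on fun i => (M i).E)) :
    fam (Matroid.disjointSigma M h) = directSum (fun i => (M i).E) fun i => fam (M i) := by
  ext X
  simp only [fam, directSum, mem_ofPred_eq, Matroid.disjointSigma_indep_iff]
  exact and_comm

open scoped Function in
theorem finitary_disjointSigma {ι : Type u} (M : ι → Matroid S)
    (h : Pairwise (Disjoint on fun i => (M i).E)) (hf : ∀ i, (M i).Finitary) :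
    (Matroid.disjointSigma M h).Finitary := by
  refine ⟨fun I hI => ?_⟩
  rw [Matroid.disjointSigma_indep_iff]
  refine ⟨fun i => ?_, fun x hx => ?_⟩
  · refine (hf i).indep_of_forall_finite _ fun J hJ hJf => ?_
    have h1 := (Matroid.disjointSigma_indep_iff.1 (hI J (hJ.trans inter_subset_left) hJf)).1 i
    rwa [inter_eq_left.2 (hJ.trans inter_subset_right)] at h1
  · have h1 := (Matroid.disjointSigma_indep_iff.1
      (hI {x} (singleton_subset_iff.2 hx) (finite_singleton x))).2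
    exact h1 rfl

open scoped Function in
theorem dual_disjointSigma {ι : Type u} (M : ι → Matroid S)
    (h : Pairwise (Disjoint on fun i => (M i).E))
    (h' : Pairwise (Disjoint on fun i => (M i)✶.E)) :
    (Matroid.disjointSigma M h)✶ = Matroid.disjointSigma (fun i => (M i)✶) h' := by
  refine Matroid.ext_isBase (by simp) fun B hB => ?_
  rw [Matroid.dual_ground] at hB
  rw [Matroid.dual_isBase_iff hB]
  rw [Matroid.disjointSigma_ground_eq] at hB
  simp only [Matroid.disjointSigma_isBase_iff, Matroid.disjointSigma_ground_eq,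
    Matroid.dual_ground, Matroid.dual_isBase_iff']
  have e : ∀ i, ((⋃ j, (M j).E) \ B) ∩ (M i).E = (M i).E \ (B ∩ (M i).E) := by
    intro i
    ext x
    simp only [mem_inter_iff, mem_sdiff, mem_iUnion]
    constructor
    · rintro ⟨⟨-, h1⟩, h2⟩
      exact ⟨h2, fun h3 => h1 h3.1⟩
    · rintro ⟨h1, h2⟩
      exact ⟨⟨⟨i, h1⟩, fun h3 => h2 ⟨h3, h1⟩⟩, h1⟩
  constructor
  · rintro ⟨h1, -⟩
    refine ⟨fun i => ⟨?_, inter_subset_right⟩, hB⟩
    rw [← e]
    exact h1 i
  · rintro ⟨h1, -⟩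
    refine ⟨fun i => ?_, sdiff_subset⟩
    rw [e]
    exact (h1 i).1

theorem closed_sumSystem : ClosedUnderSums (sumSystem (S := S)) := by
  intro ι V 𝓘 hV h𝓘
  rw [sumSystem_eq] at h𝓘 ⊢
  choose M hE hPS hfam using h𝓘
  choose M₁ M₂ hd hf₁ hf₂ hM using hPS
  have hE' : ∀ i, V i = (M₁ i).E ∪ (M₂ i).E := fun i => by
    rw [← hE i, hM i, Matroid.disjointSum_ground_eq]
  have hdis : ∀ i j, i ≠ j → Disjoint ((M₁ i).E ∪ (M₂ i).E) ((M₁ j).E ∪ (M₂ j).E) := by
    intro i j hij
    rw [← hE' i, ← hE' j]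
    exact hV i j hij
  have h1 : Pairwise (Function.onFun Disjoint fun i => (M₁ i).E) := fun i j hij =>
    (hdis i j hij).mono subset_union_left subset_union_left
  have h2 : Pairwise (Function.onFun Disjoint fun i => (M₂ i).E) := fun i j hij =>
    (hdis i j hij).mono subset_union_right subset_union_right
  have h2' : Pairwise (Function.onFun Disjoint fun i => (M₂ i)✶.E) := fun i j hij => by
    show Disjoint (M₂ i)✶.E (M₂ j)✶.E
    rw [Matroid.dual_ground, Matroid.dual_ground]
    exact h2 hij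
  have hd' : Disjoint (Matroid.disjointSigma M₁ h1).E (Matroid.disjointSigma M₂ h2).E := by
    rw [Matroid.disjointSigma_ground_eq, Matroid.disjointSigma_ground_eq, disjoint_iUnion_left]
    intro i
    rw [disjoint_iUnion_right]
    intro j
    by_cases hij : i = j
    · subst hij; exact hd i
    · exact (hdis i j hij).mono subset_union_left subset_union_right
  refine ⟨(Matroid.disjointSigma M₁ h1).disjointSum (Matroid.disjointSigma M₂ h2) hd', ?_,
    ⟨_, _, hd', finitary_disjointSigma M₁ h1 hf₁, ?_, rfl⟩, ?_⟩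
  · rw [Matroid.disjointSum_ground_eq, Matroid.disjointSigma_ground_eq,
      Matroid.disjointSigma_ground_eq, ← iUnion_union_distrib]
    exact iUnion_congr fun i => (hE' i).symm
  · rw [dual_disjointSigma M₂ h2 h2']
    exact finitary_disjointSigma _ h2' hf₂
  · ext X
    simp only [fam, directSum, mem_ofPred_eq, Matroid.disjointSum_indep_iff,
      Matroid.disjointSigma_indep_iff, Matroid.disjointSigma_ground_eq, ← iUnion_union_distrib]
    have key : ∀ i, X ∩ V i ∈ 𝓘 i ↔ (M₁ i).Indep (X ∩ (M₁ i).E) ∧ (M₂ i).Indep (X ∩ (M₂ i).E) := by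
      intro i
      rw [← hfam i, hM i]
      simp only [fam, mem_ofPred_eq, Matroid.disjointSum_indep_iff, ← hE' i]
      have e1 : X ∩ V i ∩ (M₁ i).E = X ∩ (M₁ i).E := by
        have e0 : V i ∩ (M₁ i).E = (M₁ i).E :=
          inter_eq_right.2 (by rw [hE' i]; exact subset_union_left)
        rw [inter_assoc, e0]
      have e2 : X ∩ V i ∩ (M₂ i).E = X ∩ (M₂ i).E := by
        have e0 : V i ∩ (M₂ i).E = (M₂ i).E :=
          inter_eq_right.2 (by rw [hE' i]; exact subset_union_right)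
        rw [inter_assoc, e0]
      rw [e1, e2]
      exact ⟨fun h => ⟨h.1, h.2.1⟩, fun h => ⟨h.1, h.2, inter_subset_right⟩⟩
    have hsub : (⋃ i, ((M₁ i).E ∪ (M₂ i).E)) = ⋃ i, V i := iUnion_congr fun i => (hE' i).symm
    rw [hsub]
    have f1 : ∀ i, X ∩ (⋃ j, (M₁ j).E) ∩ (M₁ i).E = X ∩ (M₁ i).E := fun i => by
      rw [inter_assoc, inter_eq_right.2 (subset_iUnion (fun j => (M₁ j).E) i)]
    have f2 : ∀ i, X ∩ (⋃ j, (M₂ j).E) ∩ (M₂ i).E = X ∩ (M₂ i).E := fun i => by
      rw [inter_assoc, inter_eq_right.2 (subset_iUnion (fun j => (M₂ j).E) i)]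
    simp only [key, f1, f2]
    constructor
    · rintro ⟨⟨a1, -⟩, ⟨a2, -⟩, a3⟩
      exact ⟨a3, fun i => ⟨a1 i, a2 i⟩⟩
    · rintro ⟨a3, a⟩
      exact ⟨⟨fun i => (a i).1, inter_subset_right⟩, ⟨fun i => (a i).2, inter_subset_right⟩, a3⟩

/-! ### Leastness -/

theorem contains_leastSystem : ContainsIndepSpaces (leastSystem (S := S)) :=
  fun _ _ h => Or.inl h

theorem leastSystem_subset {𝒟 : Set S → Set (Set (Set S))} (h : Admissible 𝒟)
    (hc : ContainsIndepSpaces 𝒟) (W : Set S) : leastSystem W ⊆ 𝒟 W := by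
  rintro 𝓘 (h1 | ⟨𝓙, h1, rfl⟩)
  · exact hc W 𝓘 h1
  · exact h.dual_mem W 𝓙 (hc W 𝓙 h1)

theorem sumSystem_subset {𝒟 : Set S → Set (Set (Set S))} (h : Admissible 𝒟)
    (hc : ContainsIndepSpaces 𝒟) (hs : ClosedUnderSums 𝒟) (W : Set S) : sumSystem W ⊆ 𝒟 W := by
  rintro 𝓘 ⟨A, 𝓙, 𝓚, hA, hJ, hK, rfl⟩
  have h1 := hs (ULift.{u} Bool) (fun b => bif b.down then A else W \ A)
    (fun b => bif b.down then 𝓙 else dual (W \ A) 𝓚) ?_ ?_
  · have e1 : (⋃ b : ULift.{u} Bool, (bif b.down then A else W \ A)) = W := by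
      ext x
      simp only [mem_iUnion, ULift.exists, Bool.exists_bool, cond_true, cond_false]
      constructor
      · rintro (hx | hx)
        · exact hx.1
        · exact hA hx
      · intro hx
        by_cases hxA : x ∈ A
        · exact Or.inr hxA
        · exact Or.inl ⟨hx, hxA⟩
    rw [e1] at h1
    convert h1 using 1
    ext X
    simp only [directSum, mem_ofPred_eq, e1, ULift.forall, Bool.forall_bool, cond_true, cond_false]
    refine and_congr_right fun hX => ?_
    rw [and_comm]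
    have e2 : X \ A = X ∩ (W \ A) := by
      ext x
      exact ⟨fun hx => ⟨hx.1, hX hx.1, hx.2⟩, fun hx => ⟨hx.1, hx.2.2⟩⟩
    rw [e2]
  · rintro ⟨_ | _⟩ ⟨_ | _⟩ hne
    · exact absurd rfl hne
    · exact disjoint_sdiff_left
    · exact disjoint_sdiff_right
    · exact absurd rfl hne
  · rintro ⟨_ | _⟩
    · exact h.dual_mem _ _ (hc _ _ hK)
    · exact hc _ _ hJ

theorem leastSystem_subset_sumSystem (W : Set S) : leastSystem W ⊆ sumSystem W := by
  refine leastSystem_subset admissible_sumSystem (fun W 𝓘 h => ?_) W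
  refine ⟨W, 𝓘, {∅}, Subset.rfl, h, ?_, ?_⟩
  · rw [sdiff_self]
    refine ⟨⟨?_, rfl, ?_, ?_⟩, ?_⟩
    · rintro X rfl; exact empty_subset _
    · rintro X rfl Y hY; exact subset_empty_iff.1 hY
    · rintro I₁ rfl I₂ rfl - - hlt; exact absurd hlt (lt_irrefl _)
    · intro Y hY
      by_contra hne
      obtain ⟨y, hy⟩ := nonempty_iff_ne_empty.2 hne
      have := hY {y} (singleton_subset_iff.2 hy) (finite_singleton y)
      exact singleton_ne_empty y this
  · ext X
    simp only [mem_ofPred_eq]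
    constructor
    · intro hX
      have hXW := h.subset X hX
      refine ⟨hXW, by rwa [inter_eq_left.2 hXW], ?_⟩
      rw [sdiff_eq_empty.2 hXW]
      refine ⟨empty_subset _, ∅, ⟨rfl, ?_⟩, empty_subset _⟩
      rintro Y rfl -; rfl
    · rintro ⟨hXW, hX, -⟩
      rwa [inter_eq_left.2 hXW] at hX

theorem contains_sumSystem : ContainsIndepSpaces (sumSystem (S := S)) :=
  fun W _ h => leastSystem_subset_sumSystem W (Or.inl h)

theorem sumSystem_bmatroid (W : Set S) : sumSystem W ⊆ {𝓘 | BMatroid W 𝓘} := by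
  rw [sumSystem_eq]
  rintro 𝓘 ⟨M, rfl, -, rfl⟩
  exact bmatroid_fam M

/-! ### Strictness -/

/-- the uniform matroid of rank one -/
def U1 (A : Set S) : Matroid S :=
  (IndepMatroid.ofFinitaryCardAugment A (fun X => X ⊆ A ∧ X.Subsingleton)
    ⟨empty_subset _, subsingleton_empty⟩
    (fun I J hJ hIJ => ⟨hIJ.trans hJ.1, hJ.2.anti hIJ⟩)
    (by
      rintro I J ⟨hI, hI'⟩ hIf ⟨hJ, hJ'⟩ hJf hlt
      have h1 : I = ∅ := by
        have := hJf.to_subtype
        have h2 : J.ncard ≤ 1 := ncard_le_one_iff_subsingleton.2 hJ'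
        have h3 : I.ncard = 0 := by omega
        exact (ncard_eq_zero hIf).1 h3
      subst h1
      obtain ⟨e, he⟩ : J.Nonempty := by
        rw [← ncard_pos hJf]
        exact (Nat.zero_le _).trans_lt hlt
      exact ⟨e, he, notMem_empty e, by
        rw [insert_empty_eq]
        exact ⟨singleton_subset_iff.2 (hJ he), subsingleton_singleton⟩⟩)
    (by
      intro I hI
      refine ⟨fun x hx => (hI {x} (singleton_subset_iff.2 hx) (finite_singleton x)).1 rfl, ?_⟩
      intro x hx y hy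
      exact (hI {x, y} (insert_subset hx (singleton_subset_iff.2 hy)) (toFinite _)).2
        (mem_insert x _) (mem_insert_of_mem x rfl))
    (fun I hI => hI.1)).matroid

theorem U1_indep {A X : Set S} : (U1 A).Indep X ↔ X ⊆ A ∧ X.Subsingleton := Iff.rfl

theorem U1_ground {A : Set S} : (U1 A).E = A := rfl

theorem U1_finitary (A : Set S) : (U1 A).Finitary :=
  IndepMatroid.ofFinitaryCardAugment_finitary ..

theorem U1_base {A : Set S} {a : S} (ha : a ∈ A) : (U1 A).IsBase {a} := by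
  rw [Matroid.isBase_iff_maximal_indep]
  refine ⟨⟨singleton_subset_iff.2 ha, subsingleton_singleton⟩, fun Y hY h1 y hy => ?_⟩
  exact (U1_indep.1 hY).2 hy (h1 rfl)

theorem U1_base_nonempty {A B : Set S} (hA : A.Nonempty) (hB : (U1 A).IsBase B) : B.Nonempty := by
  by_contra hne
  rw [not_nonempty_iff_eq_empty] at hne
  subst hne
  obtain ⟨a, ha⟩ := hA
  have h1 := hB.eq_of_subset_isBase (U1_base ha) (empty_subset _)
  exact singleton_ne_empty a h1.symm

/-- the dual of the uniform matroid of rank one on an infinite set is not finitary -/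
theorem U1_dual_finite {A F : Set S} (hA : A.Infinite) (hF : F.Finite) (hFA : F ⊆ A) :
    (U1 A)✶.Indep F := by
  rw [Matroid.dual_indep_iff_exists']
  obtain ⟨a, ha, haF⟩ := hA.exists_notMem_finite hF
  exact ⟨hFA, {a}, U1_base ha, disjoint_singleton_right.2 haF⟩

theorem U1_dual_self {A : Set S} (hA : A.Infinite) : ¬ (U1 A)✶.Indep A := by
  rw [Matroid.dual_indep_iff_exists']
  rintro ⟨-, B, hB, hd⟩
  obtain ⟨b, hb⟩ := U1_base_nonempty hA.nonempty hB
  exact disjoint_left.1 hd (hB.subset_ground hb) hb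

theorem not_leastSystem {A B : Set S} (hA : A.Infinite) (hB : B.Infinite) (hd : Disjoint A B) :
    ∃ 𝓘 ∈ sumSystem (A ∪ B), 𝓘 ∉ leastSystem (A ∪ B) := by
  have hd' : Disjoint (U1 A).E (U1 B)✶.E := by
    rw [Matroid.dual_ground]; exact hd
  have hd2 : Disjoint (U1 A)✶.E (U1 B).E := by
    rw [Matroid.dual_ground]; exact hd
  have hd3 : Disjoint (U1 A)✶.E (U1 B)✶✶.E := by
    rw [Matroid.dual_dual]; exact hd2
  refine ⟨fam ((U1 A).disjointSum (U1 B)✶ hd'), ?_, ?_⟩
  · rw [sumSystem_eq]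
    refine ⟨_, by rw [Matroid.disjointSum_ground_eq]; rfl, ⟨_, _, hd', U1_finitary A, ?_, rfl⟩, rfl⟩
    rw [Matroid.dual_dual]
    exact U1_finitary B
  · rw [leastSystem_eq]
    rintro ⟨M, hE, hM, hfam⟩
    have hM' : M = (U1 A).disjointSum (U1 B)✶ hd' := by
      refine Matroid.ext_indep (hE.trans (by rw [Matroid.disjointSum_ground_eq]; rfl)) fun X _ => ?_
      exact iff_of_eq (congrFun hfam X)
    rcases hM with h | h
    · apply U1_dual_self hB
      have h1 : M.Indep B := by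
        refine h.indep_of_forall_finite B fun J hJ hJf => ?_
        rw [hM', Matroid.disjointSum_indep_iff]
        refine ⟨?_, ?_, hJ.trans subset_union_right⟩
        · have e : J ∩ (U1 A).E = ∅ := (hd.symm.mono_left hJ).inter_eq
          rw [e]
          exact (U1 A).empty_indep
        · exact U1_dual_finite hB (hJf.subset inter_subset_left) (inter_subset_left.trans hJ)
      rw [hM', Matroid.disjointSum_indep_iff] at h1
      have h2 := h1.2.1
      have e : B ∩ (U1 B)✶.E = B := inter_self B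
      rwa [e] at h2
    · apply U1_dual_self hA
      have h0 : M✶ = (U1 A)✶.disjointSum (U1 B)✶✶ hd3 := by
        rw [hM', dual_disjointSum hd' hd3]
      have h1 : M✶.Indep A := by
        refine h.indep_of_forall_finite A fun J hJ hJf => ?_
        rw [h0, Matroid.disjointSum_indep_iff]
        refine ⟨?_, ?_, hJ.trans subset_union_left⟩
        · exact U1_dual_finite hA (hJf.subset inter_subset_left) (inter_subset_left.trans hJ)
        · have e : J ∩ (U1 B)✶✶.E = ∅ := (hd.mono_left hJ).inter_eq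
          rw [e]
          exact (U1 B)✶✶.empty_indep
      rw [h0, Matroid.disjointSum_indep_iff] at h1
      have h2 := h1.1
      have e : A ∩ (U1 A)✶.E = A := inter_self A
      rwa [e] at h2

/-- independent sets of the matroid on `P ∪ Q` in which `P` is a parallel class and the other
circuits are the sets `Q ∪ {p}` -/
def ind (P Q X : Set S) : Prop :=
  X ⊆ P ∪ Q ∧ (X ∩ P).Subsingleton ∧ ((X ∩ P).Nonempty → ¬ Q ⊆ X)

theorem ind_subset {P Q I J : Set S} (hJ : ind P Q J) (h : I ⊆ J) : ind P Q I :=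
  ⟨h.trans hJ.1, hJ.2.1.anti (inter_subset_inter_left _ h), fun hne hQ =>
    hJ.2.2 (hne.mono (inter_subset_inter_left _ h)) (hQ.trans h)⟩

theorem max_Q {P Q J : Set S} (hJ : ind P Q J) (h : Q ⊆ J) : J = Q := by
  refine Subset.antisymm (fun x hx => ?_) h
  rcases hJ.1 hx with h1 | h1
  · exact absurd h (hJ.2.2 ⟨x, hx, h1⟩)
  · exact h1

theorem max_pq {P Q J : Set S} {p q : S} (hp : p ∈ P) (hJ : ind P Q J)
    (h : insert p (Q \ {q}) ⊆ J) : J = insert p (Q \ {q}) := by
  refine Subset.antisymm (fun x hx => ?_) h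
  have hpJ : p ∈ J := h (mem_insert p _)
  rcases hJ.1 hx with h1 | h1
  · left
    exact hJ.2.1 ⟨hx, h1⟩ ⟨hpJ, hp⟩
  · by_cases hxq : x = q
    · exfalso
      refine hJ.2.2 ⟨p, hpJ, hp⟩ fun y hy => ?_
      by_cases hyq : y = q
      · rw [hyq, ← hxq]; exact hx
      · exact h (Or.inr ⟨hy, hyq⟩)
    · exact Or.inr ⟨h1, hxq⟩

theorem ind_Q {P Q : Set S} (hd : Disjoint P Q) {X : Set S} (hX : X ⊆ Q) : ind P Q X := by
  have e : X ∩ P = ∅ := (hd.symm.mono_left hX).inter_eq
  refine ⟨hX.trans subset_union_right, ?_, ?_⟩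
  · rw [e]; exact subsingleton_empty
  · rw [e]; intro h; exact absurd h not_nonempty_empty

theorem ind_p {P Q : Set S} (hd : Disjoint P Q) {X : Set S} {p : S} (hp : p ∈ P) (hX : X ⊆ Q)
    (hne : X ≠ Q) : ind P Q (insert p X) := by
  refine ⟨insert_subset (Or.inl hp) (hX.trans subset_union_right), ?_, fun _ hQ => ?_⟩
  · rintro x ⟨hx | hx, hxP⟩ y ⟨hy | hy, hyP⟩
    · rw [hx, hy]
    · exact absurd (hX hy) (disjoint_left.1 hd hyP)
    · exact absurd (hX hx) (disjoint_left.1 hd hxP)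
    · exact absurd (hX hy) (disjoint_left.1 hd hyP)
  · apply hne
    refine Subset.antisymm hX fun x hx => ?_
    rcases hQ hx with h | h
    · exact absurd hx (disjoint_left.1 hd (h ▸ hp))
    · exact h

/-- every independent set of the form `I` inside `X` extends to a maximal one -/
theorem ind_max {P Q : Set S} (hd : Disjoint P Q) (X : Set S) (hX : X ⊆ P ∪ Q) :
    Matroid.ExistsMaximalSubsetProperty (ind P Q) X := by
  intro I hI hIX
  by_cases hIP : (I ∩ P).Nonempty
  · obtain ⟨p, hpI, hp⟩ := hIP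
    have hQI := hI.2.2 ⟨p, hpI, hp⟩
    obtain ⟨q, hq, hqI⟩ := not_subset.1 hQI
    have hIsub : I ⊆ insert p (Q \ {q}) := by
      intro x hx
      rcases hI.1 hx with h | h
      · exact Or.inl (hI.2.1 ⟨hx, h⟩ ⟨hpI, hp⟩)
      · exact Or.inr ⟨h, fun hxq => hqI (hxq ▸ hx)⟩
    by_cases hQX : Q ⊆ X
    · refine ⟨insert p (Q \ {q}), hIsub, ⟨⟨ind_p hd hp sdiff_subset ?_, ?_⟩, ?_⟩⟩
      · intro h
        have : q ∈ Q \ {q} := by rw [h]; exact hq
        exact this.2 rfl
      · exact insert_subset (hIX hpI) (sdiff_subset.trans hQX)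
      · rintro K ⟨hK, hKX⟩ hle
        exact (max_pq hp hK hle).le
    · refine ⟨insert p (X ∩ Q), ?_, ⟨⟨ind_p hd hp inter_subset_right ?_, ?_⟩, ?_⟩⟩
      · intro x hx
        rcases hIsub hx with h | h
        · exact Or.inl h
        · exact Or.inr ⟨hIX hx, h.1⟩
      · intro h
        exact hQX (inter_eq_right.1 h)
      · exact insert_subset (hIX hpI) inter_subset_left
      · rintro K ⟨hK, hKX⟩ hle x hx
        have hpK : p ∈ K := hle (mem_insert p _)
        rcases hK.1 hx with h | h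
        · exact Or.inl (hK.2.1 ⟨hx, h⟩ ⟨hpK, hp⟩)
        · exact Or.inr ⟨hKX hx, h⟩
  · rw [not_nonempty_iff_eq_empty] at hIP
    have hIQ : I ⊆ Q := fun x hx => (hI.1 hx).resolve_left fun h => by
      have : x ∈ I ∩ P := ⟨hx, h⟩
      rw [hIP] at this
      exact this
    by_cases hQX : Q ⊆ X
    · refine ⟨Q, hIQ, ⟨⟨ind_Q hd Subset.rfl, hQX⟩, ?_⟩⟩
      rintro K ⟨hK, hKX⟩ hle
      exact (max_Q hK hle).le
    · by_cases hXP : (X ∩ P).Nonempty
      · obtain ⟨p, hpX, hp⟩ := hXP
        refine ⟨insert p (X ∩ Q), ?_, ⟨⟨ind_p hd hp inter_subset_right ?_, ?_⟩, ?_⟩⟩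
        · intro x hx
          exact Or.inr ⟨hIX hx, hIQ hx⟩
        · intro h
          exact hQX (inter_eq_right.1 h)
        · exact insert_subset hpX inter_subset_left
        · rintro K ⟨hK, hKX⟩ hle x hx
          have hpK : p ∈ K := hle (mem_insert p _)
          rcases hK.1 hx with h | h
          · exact Or.inl (hK.2.1 ⟨hx, h⟩ ⟨hpK, hp⟩)
          · exact Or.inr ⟨hKX hx, h⟩
      · rw [not_nonempty_iff_eq_empty] at hXP
        have hXQ : X ⊆ Q := fun x hx => (hX hx).resolve_left fun h => by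
          have : x ∈ X ∩ P := ⟨hx, h⟩
          rw [hXP] at this
          exact this
        exact ⟨X, hIX, ⟨⟨ind_Q hd hXQ, Subset.rfl⟩, fun K hK _ => hK.2⟩⟩

/-- the form of the maximal sets -/
theorem ind_maximal {P Q B : Set S} (hd : Disjoint P Q) (hB : Maximal (ind P Q) B) :
    B = Q ∨ ∃ p ∈ P, ∃ q ∈ Q, B = insert p (Q \ {q}) := by
  by_cases hBP : (B ∩ P).Nonempty
  · right
    obtain ⟨p, hpB, hp⟩ := hBP
    obtain ⟨q, hq, hqB⟩ := not_subset.1 (hB.1.2.2 ⟨p, hpB, hp⟩)
    refine ⟨p, hp, q, hq, ?_⟩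
    have hsub : B ⊆ insert p (Q \ {q}) := by
      intro x hx
      rcases hB.1.1 hx with h | h
      · exact Or.inl (hB.1.2.1 ⟨hx, h⟩ ⟨hpB, hp⟩)
      · exact Or.inr ⟨h, fun hxq => hqB (hxq ▸ hx)⟩
    refine Subset.antisymm hsub (hB.2 (ind_p hd hp sdiff_subset ?_) hsub)
    intro h
    have : q ∈ Q \ {q} := by rw [h]; exact hq
    exact this.2 rfl
  · left
    rw [not_nonempty_iff_eq_empty] at hBP
    have hBQ : B ⊆ Q := fun x hx => (hB.1.1 hx).resolve_left fun h => by
      have : x ∈ B ∩ P := ⟨hx, h⟩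
      rw [hBP] at this
      exact this
    exact Subset.antisymm hBQ (hB.2 (ind_Q hd Subset.rfl) hBQ)

/-- the matroid on `P ∪ Q` in which `P` is a parallel class and the other circuits are the sets
`Q ∪ {p}` -/
def T (P Q : Set S) (hd : Disjoint P Q) : Matroid S :=
  (IndepMatroid.mk (P ∪ Q) (ind P Q) (ind_Q hd (empty_subset _))
    (fun _ _ hJ h => ind_subset hJ h)
    (by
      intro I B hI hImax hB
      by_contra! hcon
      apply hImax
      rcases ind_maximal hd hB with rfl | ⟨p, hp, q, hq, rfl⟩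
      · -- `B = Q`
        by_cases hIP : (I ∩ P).Nonempty
        · obtain ⟨p, hpI, hp⟩ := hIP
          obtain ⟨q, hq, hqI⟩ := not_subset.1 (hI.2.2 ⟨p, hpI, hp⟩)
          -- adding `q` fails, so `I` contains the rest of `B`
          have h1 := hcon q ⟨hq, hqI⟩
          have hsub : insert p (B \ {q}) ⊆ I := by
            refine insert_subset hpI ?_
            rintro x ⟨hx, hxq⟩
            by_contra hxI
            apply h1
            refine ⟨insert_subset (Or.inr hq) hI.1, ?_, fun _ hQ => ?_⟩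
            · rintro a ⟨ha | ha, haP⟩ b ⟨hb | hb, hbP⟩
              · rw [ha, hb]
              · exact absurd hq (disjoint_left.1 hd (ha ▸ haP))
              · exact absurd hq (disjoint_left.1 hd (hb ▸ hbP))
              · exact hI.2.1 ⟨ha, haP⟩ ⟨hb, hbP⟩
            · rcases hQ hx with h | h
              · exact hxq h
              · exact hxI h
          refine ⟨hI, fun K hK hle => ?_⟩
          have e := max_pq hp hK (hsub.trans hle)
          rw [e]
          exact hsub
        · rw [not_nonempty_iff_eq_empty] at hIP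
          have hIQ : I ⊆ B := fun x hx => (hI.1 hx).resolve_left fun h => by
            have : x ∈ I ∩ P := ⟨hx, h⟩
            rw [hIP] at this
            exact this
          have e : I = B := by
            refine Subset.antisymm hIQ fun x hx => ?_
            by_contra hxI
            exact hcon x ⟨hx, hxI⟩ (ind_Q hd (insert_subset hx hIQ))
          rw [e]
          exact hB
      · by_cases hIP : (I ∩ P).Nonempty
        · obtain ⟨p', hpI, hp'⟩ := hIP
          obtain ⟨q', hq', hqI⟩ := not_subset.1 (hI.2.2 ⟨p', hpI, hp'⟩)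
          by_cases hsub : insert p' (Q \ {q'}) ⊆ I
          · refine ⟨hI, fun K hK hle => ?_⟩
            have e := max_pq hp' hK (hsub.trans hle)
            rw [e]
            exact hsub
          · exfalso
            obtain ⟨y, hy, hyI⟩ := not_subset.1 hsub
            have hyQ : y ∈ Q ∧ y ≠ q' := by
              rcases hy with rfl | hy
              · exact absurd hpI hyI
              · exact hy
            -- two elements of `Q` are missing from `I`; one of them is not `q`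
            obtain ⟨z, w, hz, hw, hzq, hzw, hzI, hwI⟩ : ∃ z w, z ∈ Q ∧ w ∈ Q ∧ z ≠ q ∧ z ≠ w ∧
                z ∉ I ∧ w ∉ I := by
              by_cases hyq : y = q
              · exact ⟨q', y, hq', hyQ.1, fun h => hyQ.2 (hyq.trans h.symm),
                  fun h => hyQ.2 h.symm, hqI, hyI⟩
              · exact ⟨y, q', hyQ.1, hq', hyq, hyQ.2, hyI, hqI⟩
            refine hcon z ⟨Or.inr ⟨hz, hzq⟩, hzI⟩ ⟨insert_subset (Or.inr hz) hI.1, ?_, ?_⟩
            · rintro a ⟨ha | ha, haP⟩ b ⟨hb | hb, hbP⟩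
              · rw [ha, hb]
              · exact absurd hz (disjoint_left.1 hd (ha ▸ haP))
              · exact absurd hz (disjoint_left.1 hd (hb ▸ hbP))
              · exact hI.2.1 ⟨ha, haP⟩ ⟨hb, hbP⟩
            · intro _ hQ
              rcases hQ hw with h | h
              · exact hzw h.symm
              · exact hwI h
        · rw [not_nonempty_iff_eq_empty] at hIP
          have hIQ : I ⊆ Q := fun x hx => (hI.1 hx).resolve_left fun h => by
            have : x ∈ I ∩ P := ⟨hx, h⟩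
            rw [hIP] at this
            exact this
          have hpI : p ∉ I := fun h => by
            have : p ∈ I ∩ P := ⟨h, hp⟩
            rw [hIP] at this
            exact this
          have e : I = Q := by
            by_contra hne
            exact hcon p ⟨mem_insert p _, hpI⟩ (ind_p hd hp hIQ hne)
          refine ⟨hI, fun K hK hle => ?_⟩
          rw [max_Q hK (e ▸ hle), e])
    (fun X hX => ind_max hd X hX) (fun _ hI => hI.1)).matroid

theorem T_indep {P Q : Set S} {hd : Disjoint P Q} {X : Set S} :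
    (T P Q hd).Indep X ↔ ind P Q X := Iff.rfl

theorem not_sumSystem {P Q : Set S} (hP : P.Infinite) (hQ : Q.Infinite) (hd : Disjoint P Q) :
    fam (T P Q hd) ∉ sumSystem (P ∪ Q) := by
  rw [sumSystem_eq]
  rintro ⟨M, hE, ⟨M₁, M₂, hd', hf₁, hf₂, hM⟩, hfam⟩
  have hMT : M = T P Q hd :=
    Matroid.ext_indep hE fun X _ => iff_of_eq (congrFun hfam X)
  obtain ⟨q, hq⟩ := hQ.nonempty
  obtain ⟨p₀, hp₀⟩ := hP.nonempty
  have hE' : M₁.E ∪ M₂.E = P ∪ Q := by
    rw [← hE, hM, Matroid.disjointSum_ground_eq]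
  have hind : ∀ X, M.Indep X ↔ ind P Q X := fun X => by rw [hMT, T_indep]
  -- the set `insert p Q` is dependent, all its proper subsets are independent
  have hdep : ∀ p ∈ P, ¬ ind P Q (insert p Q) := fun p hp h =>
    h.2.2 ⟨p, mem_insert p _, hp⟩ (subset_insert p Q)
  have hproper : ∀ p ∈ P, ∀ X, X ⊆ insert p Q → X ≠ insert p Q → ind P Q X := by
    intro p hp X hX hne
    by_cases hpX : p ∈ X
    · have e : X = insert p (X ∩ Q) := by
        ext x
        constructor
        · intro hx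
          rcases hX hx with h | h
          · exact Or.inl h
          · exact Or.inr ⟨hx, h⟩
        · rintro (rfl | h)
          · exact hpX
          · exact h.1
      rw [e]
      refine ind_p hd hp inter_subset_right fun h => hne ?_
      rw [e, h]
    · refine ind_Q hd fun x hx => (hX hx).resolve_left ?_
      rintro rfl
      exact hpX hx
  have hside : ∀ p ∈ P, insert p Q ⊆ M₁.E ∨ insert p Q ⊆ M₂.E := by
    intro p hp
    by_contra! hcon
    apply hdep p hp
    rw [← hind, hM, Matroid.disjointSum_indep_iff]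
    have hsub : insert p Q ⊆ M₁.E ∪ M₂.E := by
      rw [hE']
      exact insert_subset (Or.inl hp) subset_union_right
    refine ⟨?_, ?_, hsub⟩
    · have h1 : M.Indep (insert p Q ∩ M₁.E) := by
        rw [hind]
        exact hproper p hp _ inter_subset_left fun h => hcon.1 (inter_eq_left.1 h)
      rw [hM, Matroid.disjointSum_indep_iff, inter_assoc, inter_self] at h1
      exact h1.1
    · have h1 : M.Indep (insert p Q ∩ M₂.E) := by
        rw [hind]
        exact hproper p hp _ inter_subset_left fun h => hcon.2 (inter_eq_left.1 h)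
      rw [hM, Matroid.disjointSum_indep_iff, inter_assoc, inter_assoc, inter_self] at h1
      exact h1.2.1
  rcases hside p₀ hp₀ with h0 | h0
  · -- everything is in the finitary part
    have hall : P ∪ Q ⊆ M₁.E := by
      rintro x (hx | hx)
      · rcases hside x hx with h | h
        · exact h (mem_insert x _)
        · exact absurd (h (Or.inr hq)) (disjoint_left.1 hd' (h0 (Or.inr hq)))
      · exact h0 (Or.inr hx)
    apply hdep p₀ hp₀
    have h1 : M₁.Indep (insert p₀ Q) := by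
      refine hf₁.indep_of_forall_finite _ fun J hJ hJf => ?_
      have h2 : M.Indep J := by
        rw [hind]
        refine hproper p₀ hp₀ J hJ fun h => ?_
        rw [h] at hJf
        exact hQ (hJf.subset (subset_insert _ _))
      rw [hM, Matroid.disjointSum_indep_iff] at h2
      have e : J ∩ M₁.E = J := inter_eq_left.2 (hJ.trans h0)
      rw [e] at h2
      exact h2.1
    rw [← hind, hM, Matroid.disjointSum_indep_iff, inter_eq_left.2 h0]
    refine ⟨h1, ?_, h0.trans subset_union_left⟩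
    have e : insert p₀ Q ∩ M₂.E = ∅ := (hd'.mono_left h0).inter_eq
    rw [e]
    exact M₂.empty_indep
  · -- everything is in the cofinitary part
    have hall : P ∪ Q ⊆ M₂.E := by
      rintro x (hx | hx)
      · rcases hside x hx with h | h
        · exact absurd (h0 (Or.inr hq)) (disjoint_left.1 hd' (h (Or.inr hq)))
        · exact h (mem_insert x _)
      · exact h0 (Or.inr hx)
    have hE₁ : M₁.E = ∅ := by
      rw [eq_empty_iff_forall_notMem]
      intro x hx
      exact disjoint_left.1 hd' hx (hall (hE' ▸ Or.inl hx))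
    have hMM : M = M₂ := by
      refine Matroid.ext_indep ?_ fun X hX => ?_
      · rw [hM, Matroid.disjointSum_ground_eq, hE₁, empty_union]
      · have hX' : X ⊆ M₂.E := (hE ▸ hX : X ⊆ P ∪ Q).trans hall
        rw [hM, Matroid.disjointSum_indep_iff, hE₁, inter_empty, empty_union,
          inter_eq_left.2 hX']
        exact ⟨fun h => h.2.1, fun h => ⟨M₁.empty_indep, h, hX'⟩⟩
    rw [← hMM] at hf₂
    have h1 : M✶.Indep (insert q P) := by
      refine hf₂.indep_of_forall_finite _ fun J hJ hJf => ?_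
      obtain ⟨p, hp, hpJ⟩ := hP.exists_notMem_finite hJf
      rw [Matroid.dual_indep_iff_exists']
      have hqQ : Q \ {q} ≠ Q := fun h => by
        have : q ∈ Q \ {q} := by rw [h]; exact hq
        exact this.2 rfl
      refine ⟨?_, insert p (Q \ {q}), ?_, ?_⟩
      · rw [hE]
        exact hJ.trans (insert_subset (Or.inr hq) subset_union_left)
      · rw [Matroid.isBase_iff_maximal_indep]
        refine ⟨(hind _).2 (ind_p hd hp sdiff_subset hqQ), fun K hK hle => ?_⟩
        exact (max_pq hp ((hind K).1 hK) hle).le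
      · rw [disjoint_left]
        rintro x hxJ (rfl | hx)
        · exact hpJ hxJ
        · rcases hJ hxJ with rfl | h
          · exact hx.2 rfl
          · exact disjoint_left.1 hd h hx.1
    rw [Matroid.dual_indep_iff_exists'] at h1
    obtain ⟨-, B, hB, hdB⟩ := h1
    rw [Matroid.isBase_iff_maximal_indep] at hB
    have hB' : Maximal (ind P Q) B :=
      ⟨(hind B).1 hB.1, fun K hK hle => hB.2 ((hind K).2 hK) hle⟩
    rcases ind_maximal hd hB' with rfl | ⟨p, hp, q', -, rfl⟩
    · exact disjoint_left.1 hdB (mem_insert q _) hq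
    · exact disjoint_left.1 hdB (Or.inr hp) (mem_insert p _)

/-- an infinite set is the union of two disjoint infinite sets -/
theorem split {W : Set S} (hW : W.Infinite) :
    ∃ A B : Set S, A.Infinite ∧ B.Infinite ∧ Disjoint A B ∧ A ∪ B = W := by
  have : Infinite W := hW.to_subtype
  let f : ℕ ↪ W := Infinite.natEmbedding W
  have hinj : Function.Injective fun n : ℕ => (f (2 * n) : S) := fun a b h => by
    have := f.injective (Subtype.ext h)
    omega
  have hinj' : Function.Injective fun n : ℕ => (f (2 * n + 1) : S) := fun a b h => by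
    have := f.injective (Subtype.ext h)
    omega
  refine ⟨range fun n : ℕ => (f (2 * n) : S), W \ range fun n : ℕ => (f (2 * n) : S),
    infinite_range_of_injective hinj, ?_, disjoint_sdiff_right, ?_⟩
  · refine (infinite_range_of_injective hinj').mono ?_
    rintro _ ⟨n, rfl⟩
    refine ⟨(f (2 * n + 1)).2, ?_⟩
    rintro ⟨m, hm⟩
    have := f.injective (Subtype.ext hm)
    omega
  · refine union_sdiff_cancel ?_
    rintro _ ⟨n, rfl⟩
    exact (f (2 * n)).2

/-- **Negative answer to Q1.** Let `S` be infinite. The independence spaces and their duals form the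
least admissible system containing all independence spaces. The direct sums of an independence
space and the dual of one form the least admissible system which contains all independence spaces
and is closed under arbitrary direct sums. On every infinite subset `W` of `S` the first system is
properly contained in the second one, and the second one is properly contained in the set of all
B-matroids. -/
theorem result (S : Type u) [Infinite S] :
    (¬ ∀ 𝒟 : Set S → Set (Set (Set S)), Admissible 𝒟 → ContainsIndepSpaces 𝒟 →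
      ∀ W, 𝒟 W = {𝓘 | BMatroid W 𝓘}) ∧
    (Admissible (leastSystem (S := S)) ∧ ContainsIndepSpaces (leastSystem (S := S)) ∧
      ∀ 𝒟 : Set S → Set (Set (Set S)), Admissible 𝒟 → ContainsIndepSpaces 𝒟 →
        ∀ W, leastSystem W ⊆ 𝒟 W) ∧
    (Admissible (sumSystem (S := S)) ∧ ContainsIndepSpaces (sumSystem (S := S)) ∧
      ClosedUnderSums (sumSystem (S := S)) ∧
      ∀ 𝒟 : Set S → Set (Set (Set S)), Admissible 𝒟 → ContainsIndepSpaces 𝒟 →
        ClosedUnderSums 𝒟 → ∀ W, sumSystem W ⊆ 𝒟 W) ∧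
    ∀ W : Set S, W.Infinite →
      leastSystem W ⊂ sumSystem W ∧ sumSystem W ⊂ {𝓘 | BMatroid W 𝓘} := by
  have key : ∀ W : Set S, W.Infinite →
      leastSystem W ⊂ sumSystem W ∧ sumSystem W ⊂ {𝓘 | BMatroid W 𝓘} := by
    intro W hW
    obtain ⟨A, B, hA, hB, hd, rfl⟩ := split hW
    refine ⟨⟨leastSystem_subset_sumSystem _, fun h => ?_⟩, ⟨sumSystem_bmatroid _, fun h => ?_⟩⟩
    · obtain ⟨𝓘, h1, h2⟩ := not_leastSystem hA hB hd
      exact h2 (h h1)
    · exact not_sumSystem hA hB hd (h (bmatroid_fam (T A B hd)))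
  refine ⟨fun h => ?_, ⟨admissible_leastSystem, contains_leastSystem, fun 𝒟 h hc W =>
    leastSystem_subset h hc W⟩, ⟨admissible_sumSystem, contains_sumSystem, closed_sumSystem,
    fun 𝒟 h hc hs W => sumSystem_subset h hc hs W⟩, key⟩
  have h1 := key univ infinite_univ
  rw [h sumSystem admissible_sumSystem contains_sumSystem univ] at h1
  exact h1.2.2 Subset.rfl

end Pool.Agent.Results.MP_cb2a9f_co.SmallerSystems
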